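import Mathlib
import Pool.Agent.R29.Tutte

set_option autoImplicit false

/-!
# Outerplanarity is not determined by the Tutte polynomial (MP_f03b0a_co, Q1)

Two 2-connected multigraphs with six vertices and ten edges which have the same Tutte polynomial;
one is outerplanar, the other one contains a subdivision of `K_{2,3}` and is not outerplanar.

A graph is outerplanar if and only if its vertices can be placed on a circle such that no two edges,
drawn as chords, cross each other.
-/

namespace Pool.Agent.Results.MP_f03b0a_co.Outerplanarity

open Finset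

variable {V E : Type}

/-- The simple graph on `V` in which two different vertices are adjacent if some edge in `A` of the
multigraph (given by the ends `ends e = (u, v)` of its edges `e`) joins them. -/
def under (ends : E → V × V) (A : Finset E) : SimpleGraph V :=
  SimpleGraph.fromRel fun u v => ∃ e ∈ A, ends e = (u, v)

/-- `k(A)`: the number of the connected components of the spanning subgraph `(V, A)`. -/
noncomputable def comps (ends : E → V × V) (A : Finset E) : ℕ :=
  Nat.card (under ends A).ConnectedComponent

/-- The rank `r(A) = |V| - k(A)`. -/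
noncomputable def rank [Fintype V] (ends : E → V × V) (A : Finset E) : ℕ :=
  Fintype.card V - comps ends A

/-- The Tutte polynomial `∑_A (x-1)^(r(E)-r(A)) (y-1)^(|A|-r(A))` with `x = X 0` and `y = X 1`. -/
noncomputable def tutte [Fintype V] [Fintype E] (ends : E → V × V) : MvPolynomial (Fin 2) ℤ :=
  ∑ A : Finset E, (MvPolynomial.X 0 - 1) ^ (rank ends univ - rank ends A) *
    (MvPolynomial.X 1 - 1) ^ (A.card - rank ends A)

/-- The chords with the ends `a`, `b` and `c`, `d` of a circle cross, where the points of the circle
are numbered in their cyclic order: one end of the first chord is between the ends of the second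
chord and the other one is outside. -/
def Cross (a b c d : ℕ) : Prop :=
  min a b < min c d ∧ min c d < max a b ∧ max a b < max c d

instance (a b c d : ℕ) : Decidable (Cross a b c d) := by unfold Cross; infer_instance

/-- The graph is outerplanar: the vertices can be numbered (placed on a circle) such that no two
edges, drawn as chords, cross. -/
def IsOuterplanar [Fintype V] (ends : E → V × V) : Prop :=
  ∃ pos : V ≃ Fin (Fintype.card V), ∀ e f, ¬ Cross (pos (ends e).1) (pos (ends e).2)
    (pos (ends f).1) (pos (ends f).2)

/-- `u` and `v` are the ends of an edge -/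
def Joined (ends : E → V × V) (u v : V) : Prop := ∃ e, ends e = (u, v) ∨ ends e = (v, u)

/-- The graph contains a subdivision of `K_{2,3}` with one subdivided edge: the vertices
`a`, `b` are joined by the paths `a x b`, `a y b` and `a z w b`. -/
def HasK23 (ends : E → V × V) : Prop := ∃ a b x y z w : V, [a, b, x, y, z, w].Nodup ∧
  Joined ends a x ∧ Joined ends x b ∧ Joined ends a y ∧ Joined ends y b ∧
  Joined ends a z ∧ Joined ends z w ∧ Joined ends w b

/-- the outerplanar graph: the hexagon `0 2 3 4 5 1` with the chords `12` and `14`, where `12` and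
`34` are doubled -/
def G : Fin 10 → Fin 6 × Fin 6 :=
  ![(0,1),(0,2),(1,2),(1,2),(1,4),(1,5),(2,3),(3,4),(3,4),(4,5)]

/-- the graph which is not outerplanar: the vertices `1` and `3` are joined by an edge and by the
paths `1 0 2 3`, `1 4 3`, `1 5 3`, where the edges `15` and `23` are doubled -/
def H : Fin 10 → Fin 6 × Fin 6 :=
  ![(0,1),(0,2),(1,3),(1,4),(1,5),(1,5),(2,3),(2,3),(3,4),(3,5)]

theorem tutte_G_H : tutte G = tutte H := by
  have h : Pool.Agent.R29.tutte G = Pool.Agent.R29.tutte H := by
    apply Pool.Agent.R29.tutte_eq_of_poly (by norm_num) (by norm_num)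
    decide +kernel
  exact h

/-- the positions of the vertices `0, …, 5` in the cyclic order `0 2 3 4 5 1` -/
def posG : Fin 6 ≃ Fin 6 where
  toFun := ![0, 5, 1, 2, 3, 4]
  invFun := ![0, 2, 3, 4, 5, 1]
  left_inv := by decide
  right_inv := by decide

theorem outer_G : IsOuterplanar G := by
  refine ⟨posG, ?_⟩
  show ∀ e f : Fin 10, ¬ Cross (posG (G e).1) (posG (G e).2) (posG (G f).1) (posG (G f).2)
  decide

theorem not_outer_H : ¬ IsOuterplanar H := by
  rintro ⟨pos, hpos⟩
  have h : ∀ p : Equiv.Perm (Fin 6), ∃ e f : Fin 10,
      Cross (p (H e).1) (p (H e).2) (p (H f).1) (p (H f).2) := by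
    decide +kernel
  obtain ⟨e, f, hef⟩ := h pos
  exact hpos e f hef

theorem k23_H : HasK23 H :=
  ⟨1, 3, 4, 5, 0, 2, by decide, ⟨3, by decide⟩, ⟨8, by decide⟩, ⟨4, by decide⟩, ⟨9, by decide⟩,
    ⟨0, by decide⟩, ⟨1, by decide⟩, ⟨6, by decide⟩⟩

/-- **Outerplanarity is not determined by the Tutte polynomial.** -/
theorem result : ∃ G H : Fin 10 → Fin 6 × Fin 6,
    tutte G = tutte H ∧ IsOuterplanar G ∧ ¬ IsOuterplanar H ∧ HasK23 H :=
  ⟨G, H, tutte_G_H, outer_G, not_outer_H, k23_H⟩

end Pool.Agent.Results.MP_f03b0a_co.Outerplanarity
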